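import Mathlib
import Pool.Agent.RCC.Final

/-!
`b (u * v) ≥ (u * (u + 1) / 2) * b v` for the recursive chain cover number `b`, and the dichotomy:
either `b w = O(w ^ 2)` or `b w / w ^ 2 → ∞`.
-/

namespace Pool.Agent.Results.MP_920410_lc.ChainCoverProduct

open Pool.Agent.RCC (b)

theorem result : (∀ u v : ℕ, 1 ≤ u → ((u * (u + 1) / 2 : ℕ) : ℕ∞) * b v ≤ b (u * v)) ∧
    ((∃ C : ℕ, ∀ w : ℕ, b w ≤ ((C * w ^ 2 : ℕ) : ℕ∞)) ∨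
      ∀ C : ℕ, ∃ w₀ : ℕ, ∀ w : ℕ, w₀ ≤ w → ((C * w ^ 2 : ℕ) : ℕ∞) ≤ b w) :=
  ⟨fun u v hu => Pool.Agent.RCC.b_mul u v hu, Pool.Agent.RCC.dichotomy⟩

end Pool.Agent.Results.MP_920410_lc.ChainCoverProduct
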